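import Mathlib

/-!
# MP_fcd74d_nt: there are infinitely many `n` such that every `n - 2 ^ k` is squarefree

We prove that there are infinitely many integers `n ≥ 3` such that `n - 2 ^ k` is squarefree for
every `k ≥ 1` with `2 ^ k < n`.

The proof: let `Q` be the product of the odd primes up to `y` and look at the odd multiples
`n = Q (2 j + 1)` of `Q`, with `j < 2 ^ (8 y)`. Then `n < 2 ^ (11 y)`, and no prime `p ≤ y` can
divide `n - 2 ^ k`. For a prime `p > y` and an exponent `k`, the condition that `p ^ 2` divides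
`n - 2 ^ k` puts `j` in one residue class modulo `p ^ 2`, and the union bound over the at most
`11 y` exponents `k` and the primes `p > y` leaves at least one `j`, since the sum of `1 / p ^ 2`
over the primes `p > y` is `o (1 / y)`.
-/

set_option autoImplicit false

namespace Pool.Agent.Results.MP_fcd74d_nt.InfinitelyManyGood

open Finset

/-- The number of primes up to `n` is at most `c * n` for all large `n`. -/
theorem primeCounting_small (c : ℝ) (hc : 0 < c) :
    ∃ n₀ : ℕ, 1 ≤ n₀ ∧ ∀ n : ℕ, n₀ ≤ n → (Nat.primeCounting n : ℝ) ≤ c * n := by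
  have h1 := Chebyshev.eventually_primeCounting_le (ε := 1) one_pos
  have h2 : ∀ᶠ x : ℝ in Filter.atTop, (Real.log 4 + 1) / c ≤ Real.log x :=
    Real.tendsto_log_atTop.eventually_ge_atTop _
  have h3 := (h1.and (h2.and (Filter.eventually_gt_atTop (1 : ℝ))))
  obtain ⟨x₀, hx₀⟩ := Filter.eventually_atTop.1 h3
  refine ⟨max 1 ⌈x₀⌉₊, le_max_left _ _, fun n hn => ?_⟩
  have hn' : x₀ ≤ (n : ℝ) :=
    le_trans (Nat.le_ceil _) (by exact_mod_cast le_trans (le_max_right _ _) hn)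
  obtain ⟨ha, hb, hd⟩ := hx₀ n hn'
  rw [Nat.floor_natCast] at ha
  refine ha.trans ?_
  have hlog : 0 < Real.log n := Real.log_pos hd
  rw [div_le_iff₀ hlog]
  rw [div_le_iff₀ hc] at hb
  have hn0 : (0 : ℝ) ≤ n := Nat.cast_nonneg n
  nlinarith [mul_le_mul_of_nonneg_right hb hn0]

/-- The sum of `1 / p ^ 2` over the primes `p > y` is `o (1 / y)`. -/
theorem tail (ε : ℝ) (hε : 0 < ε) : ∃ y₀ : ℕ, 1 ≤ y₀ ∧ ∀ y : ℕ, y₀ ≤ y → ∀ I : ℕ,
    ∑ p ∈ (Finset.Ioc y (2 ^ I * y)).filter Nat.Prime, (1 : ℝ) / (p : ℝ) ^ 2 ≤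
      ε / y * (1 - (1 / 2) ^ I) := by
  obtain ⟨y₀, hy1, hy₀⟩ := primeCounting_small (ε / 4) (by positivity)
  refine ⟨y₀, hy1, fun y hy I => ?_⟩
  have hy' : (0 : ℝ) < y := by exact_mod_cast (lt_of_lt_of_le hy1 hy)
  induction I with
  | zero => simp
  | succ I ih =>
    have hsplit : (Finset.Ioc y (2 ^ (I + 1) * y)).filter Nat.Prime =
        ((Finset.Ioc y (2 ^ I * y)).filter Nat.Prime) ∪
          ((Finset.Ioc (2 ^ I * y) (2 ^ (I + 1) * y)).filter Nat.Prime) := by
      rw [← Finset.filter_union, Finset.Ioc_union_Ioc_eq_Ioc]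
      · exact Nat.le_mul_of_pos_left _ (by positivity)
      · exact Nat.mul_le_mul_right _ (Nat.pow_le_pow_right (by norm_num) (Nat.le_succ I))
    rw [hsplit, Finset.sum_union]
    · have hblock : ∑ p ∈ (Finset.Ioc (2 ^ I * y) (2 ^ (I + 1) * y)).filter Nat.Prime,
          (1 : ℝ) / (p : ℝ) ^ 2 ≤ ε / y * (1 / 2) ^ (I + 1) := by
        have hterm : ∀ p ∈ (Finset.Ioc (2 ^ I * y) (2 ^ (I + 1) * y)).filter Nat.Prime,
            (1 : ℝ) / (p : ℝ) ^ 2 ≤ 1 / ((2 : ℝ) ^ I * y) ^ 2 := by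
          intro p hp
          rw [Finset.mem_filter, Finset.mem_Ioc] at hp
          have : ((2 : ℝ) ^ I * y) ≤ p := by exact_mod_cast hp.1.1.le
          gcongr
        refine (Finset.sum_le_card_nsmul _ _ _ hterm).trans ?_
        rw [nsmul_eq_mul]
        have hcard : (((Finset.Ioc (2 ^ I * y) (2 ^ (I + 1) * y)).filter Nat.Prime).card : ℝ) ≤
            ε / 4 * (2 ^ (I + 1) * y) := by
          have h1 : ((Finset.Ioc (2 ^ I * y) (2 ^ (I + 1) * y)).filter Nat.Prime).card ≤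
              Nat.primeCounting (2 ^ (I + 1) * y) := by
            rw [Nat.primeCounting, Nat.primeCounting', Nat.count_eq_card_filter_range]
            apply Finset.card_le_card
            intro p hp
            rw [Finset.mem_filter, Finset.mem_Ioc] at hp
            rw [Finset.mem_filter, Finset.mem_range]
            exact ⟨Nat.lt_succ_of_le hp.1.2, hp.2⟩
          have h2 := hy₀ (2 ^ (I + 1) * y)
            (hy.trans (Nat.le_mul_of_pos_left _ (by positivity)))
          push_cast at h2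
          exact le_trans (by exact_mod_cast h1) h2
        refine (mul_le_mul_of_nonneg_right hcard (by positivity)).trans (le_of_eq ?_)
        have h2I : (2 : ℝ) ^ I ≠ 0 := by positivity
        rw [one_div_pow, pow_succ]
        field_simp
        ring
      calc _ ≤ ε / y * (1 - (1 / 2) ^ I) + ε / y * (1 / 2) ^ (I + 1) := add_le_add ih hblock
        _ = _ := by rw [pow_succ]; ring
    · rw [Finset.disjoint_left]
      intro p hp hq
      rw [Finset.mem_filter, Finset.mem_Ioc] at hp hq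
      omega

/-- At most `J / m + 1` of the `j < J` satisfy a divisibility condition `m ∣ 2 Q j + c` with
`2 Q` prime to `m`. -/
theorem card_class (J m : ℕ) (hm : 0 < m) (a : ℕ) (c : ℤ) (ha : Nat.Coprime a m) :
    (((Finset.range J).filter (fun j : ℕ => (m : ℤ) ∣ (a : ℤ) * j + c)).card : ℝ) ≤
      (J : ℝ) / m + 1 := by
  classical
  rcases Finset.eq_empty_or_nonempty
    ((Finset.range J).filter (fun j : ℕ => (m : ℤ) ∣ (a : ℤ) * j + c)) with h | ⟨j₀, hj₀⟩
  · rw [h, Finset.card_empty, Nat.cast_zero]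
    positivity
  · rw [Finset.mem_filter] at hj₀
    have hsub : (Finset.range J).filter (fun j : ℕ => (m : ℤ) ∣ (a : ℤ) * j + c) ⊆
        (Finset.range J).filter (fun j : ℕ => j ≡ j₀ [MOD m]) := by
      intro j hj
      rw [Finset.mem_filter] at hj ⊢
      refine ⟨hj.1, ?_⟩
      have h1 : (m : ℤ) ∣ (a : ℤ) * ((j : ℤ) - j₀) := by
        have := dvd_sub hj.2 hj₀.2
        have h2 : (a : ℤ) * j + c - (a * j₀ + c) = a * ((j : ℤ) - j₀) := by ring
        rwa [h2] at this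
      have h2 : IsCoprime (m : ℤ) (a : ℤ) := Nat.isCoprime_iff_coprime.2 ha.symm
      have h3 : (m : ℤ) ∣ (j : ℤ) - j₀ := h2.dvd_of_dvd_mul_left h1
      have h4 : (j₀ : ℤ) ≡ j [ZMOD m] := (Int.modEq_iff_dvd).2 h3
      exact ((Int.natCast_modEq_iff).1 h4).symm
    have hcard := Finset.card_le_card hsub
    have hcount : ((Finset.range J).filter (fun j : ℕ => j ≡ j₀ [MOD m])).card =
        J.count (· ≡ j₀ [MOD m]) := by
      rw [Nat.count_eq_card_filter_range]
    have h5 := Nat.count_modEq_card J hm j₀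
    have h6 : J.count (· ≡ j₀ [MOD m]) ≤ J / m + 1 := by
      rw [h5]
      split_ifs <;> omega
    have h7 : ((J / m : ℕ) : ℝ) ≤ (J : ℝ) / m := Nat.cast_div_le
    have h8 : (((Finset.range J).filter (fun j : ℕ => (m : ℤ) ∣ (a : ℤ) * j + c)).card : ℝ) ≤
        ((J / m + 1 : ℕ) : ℝ) := by
      exact_mod_cast (hcard.trans (hcount.le.trans h6))
    push_cast at h8
    linarith

/-- For every large `y` there is a good integer divisible by all odd primes up to `y`. -/
theorem exists_good : ∃ y₀ : ℕ, 3 ≤ y₀ ∧ ∀ y : ℕ, y₀ ≤ y → ∃ n : ℕ,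
    (∀ p : ℕ, p.Prime → p ≠ 2 → p ≤ y → p ∣ n) ∧ 0 < n ∧
      ∀ k : ℕ, 1 ≤ k → 2 ^ k < n → Squarefree (n - 2 ^ k) := by
  classical
  obtain ⟨y₁, hy₁, htail⟩ := tail (1 / 44) (by norm_num)
  -- `11 y 2 ^ (6 y) ≤ 2 ^ (8 y) / 4`
  refine ⟨max 12 y₁, le_trans (by norm_num) (le_max_left _ _), fun y hy => ?_⟩
  have hy12 : 12 ≤ y := le_trans (le_max_left _ _) hy
  have hyy₁ : y₁ ≤ y := le_trans (le_max_right _ _) hy
  set Q : ℕ := ∏ p ∈ (Finset.range (y + 1)).filter (fun p => p.Prime ∧ p ≠ 2), p with hQ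
  have hQpos : 0 < Q := Finset.prod_pos fun p hp => (Finset.mem_filter.1 hp).2.1.pos
  have hQdvd : ∀ p : ℕ, p.Prime → p ≠ 2 → p ≤ y → p ∣ Q := by
    intro p hp h2 hpy
    exact Finset.dvd_prod_of_mem _
      (Finset.mem_filter.2 ⟨Finset.mem_range.2 (Nat.lt_succ_of_le hpy), hp, h2⟩)
  have hQodd : ¬ 2 ∣ Q := by
    rw [Prime.dvd_finsetProd_iff Nat.prime_two.prime]
    rintro ⟨p, hp, h2⟩
    rw [Finset.mem_filter] at hp
    exact hp.2.2 ((Nat.prime_dvd_prime_iff_eq Nat.prime_two hp.2.1).1 h2).symm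
  have hQle : Q ≤ 4 ^ y := by
    refine le_trans ?_ (primorial_le_four_pow y)
    rw [primorial]
    refine Nat.le_of_dvd (Finset.prod_pos fun p hp => ?_) ?_
    · exact (Finset.mem_filter.1 hp).2.pos
    · apply Finset.prod_dvd_prod_of_subset
      intro p hp
      rw [Finset.mem_filter] at hp ⊢
      exact ⟨hp.1, hp.2.1⟩
  have hQcop : ∀ p : ℕ, p.Prime → y < p → Nat.Coprime (2 * Q) (p ^ 2) := by
    intro p hp hpy
    apply Nat.Coprime.pow_right
    rw [Nat.coprime_comm, Nat.Prime.coprime_iff_not_dvd hp, hp.dvd_mul]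
    rintro (h | h)
    · have := Nat.le_of_dvd (by norm_num) h
      omega
    · rw [Prime.dvd_finsetProd_iff hp.prime] at h
      obtain ⟨q, hq, hpq⟩ := h
      rw [Finset.mem_filter, Finset.mem_range] at hq
      have := (Nat.prime_dvd_prime_iff_eq hp hq.2.1).1 hpq
      omega
  set J : ℕ := 2 ^ (8 * y) with hJ
  by_contra hcon
  push Not at hcon
  -- every `j < J` is bad
  have hbad : ∀ j ∈ Finset.range J, ∃ k ∈ Finset.range (11 * y),
      ∃ p ∈ (Finset.Ioc y (2 ^ (6 * y) * y)).filter Nat.Prime,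
        ((p ^ 2 : ℕ) : ℤ) ∣ ((2 * Q : ℕ) : ℤ) * j + ((Q : ℤ) - 2 ^ k) := by
    intro j hj
    rw [Finset.mem_range] at hj
    obtain ⟨k, hk1, hkn, hsq⟩ := hcon (Q * (2 * j + 1))
      (fun p hp h2 hpy => Dvd.dvd.mul_right (hQdvd p hp h2 hpy) _) (by positivity)
    have hnlt : Q * (2 * j + 1) < 2 ^ (11 * y) := by
      calc Q * (2 * j + 1) ≤ 4 ^ y * (2 * j + 1) := Nat.mul_le_mul_right _ hQle
        _ < 4 ^ y * (2 * J) := by
            apply Nat.mul_lt_mul_of_pos_left _ (by positivity)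
            omega
        _ = 2 ^ (10 * y + 1) := by
            rw [hJ, show (4 : ℕ) = 2 ^ 2 by norm_num, ← pow_mul]
            ring
        _ ≤ 2 ^ (11 * y) := Nat.pow_le_pow_right (by norm_num) (by omega)
    have hk : k < 11 * y := by
      have : 2 ^ k < 2 ^ (11 * y) := hkn.trans hnlt
      exact (Nat.pow_lt_pow_iff_right (by norm_num)).1 this
    rw [Nat.squarefree_iff_prime_squarefree] at hsq
    push Not at hsq
    obtain ⟨p, hp, hpp⟩ := hsq
    have hpd : p ∣ Q * (2 * j + 1) - 2 ^ k := (Dvd.intro _ rfl).trans hpp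
    have hadd : Q * (2 * j + 1) - 2 ^ k + 2 ^ k = Q * (2 * j + 1) := Nat.sub_add_cancel hkn.le
    have hp2 : p ≠ 2 := by
      rintro rfl
      have h2k : 2 ∣ 2 ^ k := dvd_pow_self 2 (by omega)
      have : 2 ∣ Q * (2 * j + 1) := by
        rw [← hadd]
        exact dvd_add hpd h2k
      rcases (Nat.Prime.dvd_mul Nat.prime_two).1 this with h | h
      · exact hQodd h
      · omega
    have hpy : y < p := by
      by_contra hle
      push Not at hle
      have h1 : p ∣ Q * (2 * j + 1) := Dvd.dvd.mul_right (hQdvd p hp hp2 hle) _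
      have h2 : p ∣ 2 ^ k := by
        rw [← hadd] at h1
        exact (Nat.dvd_add_right hpd).1 h1
      exact hp2 ((Nat.prime_dvd_prime_iff_eq hp Nat.prime_two).1 (hp.dvd_of_dvd_pow h2))
    have hppos : 0 < Q * (2 * j + 1) - 2 ^ k := Nat.sub_pos_of_lt hkn
    have hple : p * p < 2 ^ (11 * y) :=
      lt_of_le_of_lt (Nat.le_of_dvd hppos hpp) (lt_of_le_of_lt (Nat.sub_le _ _) hnlt)
    have hpup : p ≤ 2 ^ (6 * y) * y := by
      by_contra hlt
      push Not at hlt
      have h1 : 2 ^ (6 * y) ≤ p := by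
        refine le_trans ?_ hlt.le
        exact Nat.le_mul_of_pos_right _ (by omega)
      have h2 : 2 ^ (11 * y) ≤ p * p := by
        calc 2 ^ (11 * y) ≤ 2 ^ (6 * y) * 2 ^ (6 * y) := by
              rw [← pow_add]
              exact Nat.pow_le_pow_right (by norm_num) (by omega)
          _ ≤ p * p := Nat.mul_le_mul h1 h1
      omega
    refine ⟨k, Finset.mem_range.2 hk, p,
      Finset.mem_filter.2 ⟨Finset.mem_Ioc.2 ⟨hpy, hpup⟩, hp⟩, ?_⟩
    have hz : ((2 * Q : ℕ) : ℤ) * j + ((Q : ℤ) - 2 ^ k) =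
        ((Q * (2 * j + 1) - 2 ^ k : ℕ) : ℤ) := by
      rw [Nat.cast_sub hkn.le]
      push_cast
      ring
    rw [hz, pow_two]
    exact_mod_cast hpp
  -- union bound
  have hcover : Finset.range J ⊆ (Finset.range (11 * y)).biUnion (fun k =>
      ((Finset.Ioc y (2 ^ (6 * y) * y)).filter Nat.Prime).biUnion (fun p =>
        (Finset.range J).filter (fun j : ℕ =>
          ((p ^ 2 : ℕ) : ℤ) ∣ ((2 * Q : ℕ) : ℤ) * j + ((Q : ℤ) - 2 ^ k)))) := by
    intro j hj
    obtain ⟨k, hk, p, hp, h⟩ := hbad j hj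
    rw [Finset.mem_biUnion]
    refine ⟨k, hk, ?_⟩
    rw [Finset.mem_biUnion]
    exact ⟨p, hp, Finset.mem_filter.2 ⟨hj, h⟩⟩
  have hJpos : (0 : ℝ) < J := by positivity
  have hypos : (0 : ℝ) < y := by
    have : 0 < y := by omega
    exact_mod_cast this
  have h1 : (J : ℝ) ≤ ∑ _k ∈ Finset.range (11 * y),
      ∑ p ∈ (Finset.Ioc y (2 ^ (6 * y) * y)).filter Nat.Prime, ((J : ℝ) / (p : ℝ) ^ 2 + 1) := by
    have h2 := Finset.card_le_card hcover
    rw [Finset.card_range] at h2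
    have h3 : (J : ℝ) ≤ ((∑ k ∈ Finset.range (11 * y),
        ∑ p ∈ (Finset.Ioc y (2 ^ (6 * y) * y)).filter Nat.Prime,
          ((Finset.range J).filter (fun j : ℕ =>
            ((p ^ 2 : ℕ) : ℤ) ∣ ((2 * Q : ℕ) : ℤ) * j + ((Q : ℤ) - 2 ^ k))).card : ℕ) : ℝ) := by
      exact_mod_cast h2.trans (Finset.card_biUnion_le.trans
        (Finset.sum_le_sum fun k _ => Finset.card_biUnion_le))
    refine h3.trans ?_
    push_cast
    refine Finset.sum_le_sum fun k _ => Finset.sum_le_sum fun p hp => ?_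
    rw [Finset.mem_filter, Finset.mem_Ioc] at hp
    have h4 := card_class J (p ^ 2) (pow_pos hp.2.pos 2) (2 * Q) ((Q : ℤ) - 2 ^ k)
      (hQcop p hp.2 hp.1.1)
    push_cast at h4
    exact h4
  have h2 : ∑ p ∈ (Finset.Ioc y (2 ^ (6 * y) * y)).filter Nat.Prime, ((J : ℝ) / (p : ℝ) ^ 2 + 1) ≤
      (J : ℝ) * (1 / 44 / y) + 2 ^ (6 * y) * y := by
    rw [Finset.sum_add_distrib]
    apply add_le_add
    · have h3 := htail y hyy₁ (6 * y)
      have h4 : ∑ p ∈ (Finset.Ioc y (2 ^ (6 * y) * y)).filter Nat.Prime, (J : ℝ) / (p : ℝ) ^ 2 =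
          (J : ℝ) * ∑ p ∈ (Finset.Ioc y (2 ^ (6 * y) * y)).filter Nat.Prime,
            (1 : ℝ) / (p : ℝ) ^ 2 := by
        rw [Finset.mul_sum]
        exact Finset.sum_congr rfl fun p _ => by ring
      rw [h4]
      apply mul_le_mul_of_nonneg_left _ hJpos.le
      refine h3.trans ?_
      have h5 : (0 : ℝ) ≤ 1 / 44 / y := by positivity
      have h6 : (0 : ℝ) ≤ (1 / 2) ^ (6 * y) := by positivity
      nlinarith [mul_nonneg h5 h6]
    · rw [Finset.sum_const, nsmul_eq_mul, mul_one]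
      have h3 : ((Finset.Ioc y (2 ^ (6 * y) * y)).filter Nat.Prime).card ≤ 2 ^ (6 * y) * y := by
        refine (Finset.card_filter_le _ _).trans ?_
        rw [Nat.card_Ioc]
        exact Nat.sub_le _ _
      exact_mod_cast h3
  have h3 : (J : ℝ) ≤ (11 * y : ℝ) * ((J : ℝ) * (1 / 44 / y) + 2 ^ (6 * y) * y) := by
    refine h1.trans ?_
    rw [Finset.sum_const, Finset.card_range, nsmul_eq_mul]
    push_cast
    exact mul_le_mul_of_nonneg_left h2 (by positivity)
  have h4 : (11 * y : ℝ) * ((J : ℝ) * (1 / 44 / y) + 2 ^ (6 * y) * y) =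
      (J : ℝ) / 4 + 11 * (y : ℝ) ^ 2 * 2 ^ (6 * y) := by
    field_simp
    ring
  rw [h4] at h3
  -- `11 y ^ 2 2 ^ (6 y) ≤ 2 ^ (8 y) / 2`
  have h5 : 11 * y ^ 2 * 2 ^ (6 * y) * 2 ≤ J := by
    have h6 : ∀ z : ℕ, 12 ≤ z → 22 * z ^ 2 ≤ 2 ^ (2 * z) := by
      intro z hz
      induction z, hz using Nat.le_induction with
      | base => norm_num
      | succ z hz ih =>
        have : 2 ^ (2 * (z + 1)) = 4 * 2 ^ (2 * z) := by ring
        rw [this]
        nlinarith
    have h7 := h6 y hy12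
    calc 11 * y ^ 2 * 2 ^ (6 * y) * 2 = (22 * y ^ 2) * 2 ^ (6 * y) := by ring
      _ ≤ 2 ^ (2 * y) * 2 ^ (6 * y) := Nat.mul_le_mul_right _ h7
      _ = J := by rw [hJ, ← pow_add]; congr 1; ring
  have h6 : 11 * (y : ℝ) ^ 2 * 2 ^ (6 * y) * 2 ≤ J := by exact_mod_cast h5
  linarith

/-- **Erdős.** There are infinitely many integers `n ≥ 3` such that `n - 2 ^ k` is squarefree for
every `k ≥ 1` with `2 ^ k < n`. -/
theorem result :
    {n : ℕ | 3 ≤ n ∧ ∀ k : ℕ, 1 ≤ k → 2 ^ k < n → Squarefree (n - 2 ^ k)}.Infinite := by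
  obtain ⟨y₀, hy₀, h⟩ := exists_good
  rw [Set.infinite_iff_exists_gt]
  intro a
  obtain ⟨p, hp1, hp⟩ := Nat.exists_infinite_primes (max (a + 1) y₀ + 1)
  have hpa : a < p := by
    have := le_max_left (a + 1) y₀
    omega
  have hpy : y₀ ≤ p := by
    have := le_max_right (a + 1) y₀
    omega
  obtain ⟨n, hn, hpos, hgood⟩ := h p hpy
  have hpn : p ≤ n := Nat.le_of_dvd hpos (hn p hp (by omega) le_rfl)
  exact ⟨n, ⟨by omega, hgood⟩, by omega⟩

end Pool.Agent.Results.MP_fcd74d_nt.InfinitelyManyGood
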